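import Pool.Agent.H.MP_f3efb8_co.A

namespace Pool.Agent.Results.MP_f3efb8_co.Counter

open Finset

/-- Every vertex has exactly `r` neighbours. -/
def Reg {V : Type} (G : SimpleGraph V) (r : ℕ) : Prop := ∀ v, (G.neighborSet v).ncard = r

/-- `k`-connectivity. -/
def Conn {V : Type} [Fintype V] (G : SimpleGraph V) (k : ℕ) : Prop :=
  k < Fintype.card V ∧ ∀ D : Finset V, D.card < k → (G.induce ((D : Set V)ᶜ)).Connected

open Pool.Agent.H.MP_f3efb8_co

theorem nc (K : SimpleGraph V) [DecidableRel K.Adj] (v : V) :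
    (K.neighborSet v).ncard = (univ.filter (fun w => K.Adj v w)).card := by
  rw [← Set.ncard_coe_finset]
  congr 1
  ext w
  simp

theorem result : ∃ (W : Type) (_ : Fintype W) (G : SimpleGraph W) (r t : ℕ),
    0 < t ∧ t ≤ r ∧ r ≤ 2 * t ∧ Reg G r ∧ Conn G 2 ∧ Conn G 3 ∧ (∃ F ≤ G, Reg F t) ∧
    ∃ (u : W) (c : G.Walk u u), c.IsCycle ∧ ∀ F ≤ G, Reg F t → ∀ e ∈ c.edges, e ∉ F.edgeSet := by
  classical
  refine ⟨V, inferInstance, G, 11, 8, by norm_num, by norm_num, by norm_num, fun v => ?_,
    ⟨by simp, fun D hD => conn D (by omega)⟩, ⟨by simp, conn⟩, ⟨F, h_le, fun v => ?_⟩, .inl 0,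
    .cons (show G.Adj (.inl 0) (.inl 1) from rfl) (.cons (show G.Adj (.inl 1) (.inl 2) from rfl)
      (.cons (show G.Adj (.inl 2) (.inl 0) from rfl) .nil)), ?_, fun K hK hr => ?_⟩
  · rw [nc]
    convert g_deg v
    rfl
  · rw [nc]
    convert h_deg v
    rfl
  · simp [SimpleGraph.Walk.isCycle_def, SimpleGraph.Walk.isTrail_def]
  · have := miss (fun x y => if K.Adj x y then 1 else 0) (fun x y => by simp only [K.adj_comm])
      (fun x y => by
        split_ifs with h
        · have : g x y = true := hK h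
          simp [this]
        · simp) (fun x => by rw [← card_filter, ← nc, hr x])
    simp only [ite_eq_right_iff, one_ne_zero, imp_false] at this
    simp [this]

end Pool.Agent.Results.MP_f3efb8_co.Counter
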